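import Mathlib
import Pool.Agent.Lib.MP_2ab09f_lc.Model
import Pool.Agent.Lib.MP_2ab09f_lc.LB.Final

/-!
Randomized id consensus with multi-writer multi-reader registers: the worst-case expected number
of steps per processor is more than `(1 / 12) * log₂ log₂ n - 2`, even if the schedule is fixed in
advance.
-/

open MeasureTheory
open scoped ENNReal
open Pool.Agent.Lib.MP_2ab09f_lc

theorem Pool.Agent.Results.MP_2ab09f_lc.LogLog.result (C n : ℕ)
    (hn : 2 ^ 2 ^ (12 * (C + 1)) ≤ n) {Ω : Type*} [MeasurableSpace Ω] (μ : Measure Ω)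
    [IsProbabilityMeasure μ] (A : Alg n Ω) (hA : A.Correct μ) (u : Fin n → ℕ)
    (hu : Function.Injective u) :
    ∃ (L : List (Fin n)) (p : Fin n), (C : ℝ≥0∞) < A.expSteps μ u L p :=
  LB.main C n hn μ A hA u hu
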