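import Mathlib
import Pool.Agent.Lib.MP_2ab09f_lc.Model
import Pool.Agent.Lib.MP_2ab09f_lcS.Adv
import Pool.Agent.Lib.MP_2ab09f_lcS.Main

/-!
Randomized id consensus with multi-writer multi-reader registers against an adaptive adversary:
`300000 * √(log n)` expected steps per processor suffice.
-/

open MeasureTheory
open scoped ENNReal
open Pool.Agent.Lib.MP_2ab09f_lc

theorem Pool.Agent.Results.MP_2ab09f_lc.SqrtUpper.result (n : ℕ) (hn : 2 ≤ n) :
    ∃ (Ω : Type) (_ : MeasurableSpace Ω) (μ : Measure Ω) (_ : IsProbabilityMeasure μ)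
      (prog : ℕ → Ω → Prog) (hm : ∀ i h a, MeasurableSet {ω | prog i ω h = a}),
      (Alg.ofLocal n prog hm).Correct (Measure.pi fun _ => μ) ∧
      ∀ u : Fin n → ℕ, Function.Injective u → ∀ σ : Adv n,
        (Alg.ofLocal n prog hm).WaitFreeAdv (Measure.pi fun _ => μ) u σ ∧
        ∀ p, (Alg.ofLocal n prog hm).expStepsAdv (Measure.pi fun _ => μ) u σ p ≤
          ENNReal.ofReal (300000 * Real.sqrt (Real.log n)) :=
  SQ.main n hn
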